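import Mathlib

/-!
# Numerically hypercyclic operators: definitions
-/

set_option autoImplicit false

namespace Pool.Agent.R853.NH

universe u v

/-- `T` is numerically hypercyclic: for some `x` and `f` with `‖x‖ = ‖f‖ = f x = 1` the numbers
`f (T ^ k x)` are dense in the complex plane. -/
def NumHyp {X : Type u} [NormedAddCommGroup X] [NormedSpace ℂ X] (T : X →L[ℂ] X) : Prop :=
  ∃ (x : X) (f : X →L[ℂ] ℂ), ‖x‖ = 1 ∧ ‖f‖ = 1 ∧ f x = 1 ∧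
    Dense (Set.range fun k : ℕ => f ((T ^ k) x))

/-- `T` is weakly numerically hypercyclic: it is similar to a numerically hypercyclic operator on
some Banach space. -/
def WeaklyNumHyp {X : Type v} [NormedAddCommGroup X] [NormedSpace ℂ X] (T : X →L[ℂ] X) : Prop :=
  ∃ (Y : Type u) (_ : NormedAddCommGroup Y) (_ : NormedSpace ℂ Y) (_ : CompleteSpace Y)
    (S : Y →L[ℂ] Y) (J : X ≃L[ℂ] Y), NumHyp S ∧ ∀ x, J (T x) = S (J x)

/-- Two complex numbers are independent. -/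
def Independent (z w : ℂ) : Prop := ∀ a b : ℤ, z ^ a * w ^ b = 1 → a = 0 ∧ b = 0

/-- A complex number has infinite order. -/
def InfiniteOrder (z : ℂ) : Prop := ∀ t : ℕ, 0 < t → z ^ t ≠ 1

variable {X : Type v} [NormedAddCommGroup X] [NormedSpace ℂ X]

/-- `l` is an eigenvalue of `T`. -/
def IsEig (T : X →L[ℂ] X) (l : ℂ) : Prop := ∃ x : X, x ≠ 0 ∧ T x = l • x

/-- The kernels of `(T - l)²` and `T - l` differ. -/
def KerNe (T : X →L[ℂ] X) (l : ℂ) : Prop :=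
  {x : X | ((T - l • (1 : X →L[ℂ] X)) ^ 2) x = 0} ≠ {x : X | (T - l • (1 : X →L[ℂ] X)) x = 0}

/-- Condition (C1). -/
def C1 (T : X →L[ℂ] X) : Prop := ∃ l m : ℂ, IsEig T l ∧ IsEig T m ∧ ‖l‖ = ‖m‖ ∧ 1 < ‖m‖ ∧
  Independent (l / ‖l‖) (m / ‖m‖)

/-- Condition (C2). -/
def C2 (T : X →L[ℂ] X) : Prop := ∃ l m : ℂ, ‖l‖ = 1 ∧ ‖m‖ = 1 ∧ Independent l m ∧ KerNe T l ∧
  KerNe T m

/-- Condition (C3). -/
def C3 (T : X →L[ℂ] X) : Prop := ∃ l m k : ℂ, IsEig T l ∧ IsEig T m ∧ IsEig T k ∧ ‖l‖ = ‖m‖ ∧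
  ‖k‖ < ‖m‖ ∧ 1 < ‖k‖ ∧ InfiniteOrder (l / m) ∧ Independent (l / ‖l‖) (k / ‖k‖)

/-- Condition (C4). -/
def C4 (T : X →L[ℂ] X) : Prop := ∃ l m k : ℂ, IsEig T l ∧ IsEig T m ∧ ‖k‖ = 1 ∧ KerNe T k ∧
  ‖l‖ = ‖m‖ ∧ 1 < ‖m‖ ∧ InfiniteOrder (l / m) ∧ Independent (l / ‖l‖) k

end Pool.Agent.R853.NH
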