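import Pool.Agent.R853.WNH.Seq

/-!
# Matrix coefficients of the powers of an operator
-/

set_option autoImplicit false

namespace Pool.Agent.R853.WNH

open Filter Topology Polynomial Module

variable {V : Type*} [AddCommGroup V] [Module ℂ V]

/-- The sets of the zeros of `T - l` and `(T - l)²` differ. -/
def Blk (T : End ℂ V) (l : ℂ) : Prop :=
  ∃ v, (T - l • (1 : End ℂ V)) ((T - l • (1 : End ℂ V)) v) = 0 ∧ (T - l • (1 : End ℂ V)) v ≠ 0

theorem apply_eq_zero {T : End ℂ V} {l : ℂ} (h : ¬ Blk T l) {x : V} : ∀ n : ℕ,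
    ((T - l • (1 : End ℂ V)) ^ n) x = 0 → (T - l • (1 : End ℂ V)) x = 0
  | 0, h0 => by
    have h1 : x = 0 := by simpa using h0
    rw [h1, map_zero]
  | 1, h0 => by simpa using h0
  | n + 2, h0 => by
    apply apply_eq_zero h (n + 1)
    by_contra h1
    apply h
    refine ⟨((T - l • (1 : End ℂ V)) ^ n) x, ?_, ?_⟩
    · rw [← Module.End.mul_apply, ← Module.End.mul_apply, ← sq, ← pow_add, add_comm 2 n]
      exact h0
    · rw [← Module.End.mul_apply, ← pow_succ']
      exact h1

theorem pow_apply_sum (T : End ℂ V) (φ : V →ₗ[ℂ] ℂ) {l : ℂ} (hl : l ≠ 0) {x : V} {n : ℕ}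
    (h : ((T - l • (1 : End ℂ V)) ^ n) x = 0) (k : ℕ) :
    φ ((T ^ k) x) = l ^ k * (∑ j ∈ Finset.range n,
      C ((l ^ j)⁻¹ * φ (((T - l • (1 : End ℂ V)) ^ j) x) / (j.factorial : ℂ)) *
        descPochhammer ℂ j).eval (k : ℂ) := by
  set N : End ℂ V := T - l • (1 : End ℂ V) with hN
  have h1 : T = N + l • (1 : End ℂ V) := by rw [hN, sub_add_cancel]
  have hc : Commute N (l • (1 : End ℂ V)) := (Commute.one_right N).smul_right l
  have h2 : φ ((T ^ k) x) = ∑ m ∈ Finset.range (k + 1),
      l ^ k * ((l ^ m)⁻¹ * (k.choose m : ℂ) * φ ((N ^ m) x)) := by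
    conv_lhs => rw [h1]
    rw [hc.add_pow, LinearMap.sum_apply, map_sum]
    refine Finset.sum_congr rfl fun m hm => ?_
    have h3 : m ≤ k := Nat.lt_succ_iff.1 (Finset.mem_range.1 hm)
    have h4 : (N ^ m * (l • (1 : End ℂ V)) ^ (k - m) * ((k.choose m : ℕ) : End ℂ V)) x =
        (l ^ (k - m) * (k.choose m : ℂ)) • (N ^ m) x := by
      rw [_root_.smul_pow, one_pow, mul_smul_comm, mul_one, smul_mul_assoc, LinearMap.smul_apply,
        Module.End.mul_apply, Module.End.natCast_apply, map_nsmul, mul_smul, Nat.cast_smul_eq_nsmul]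
    rw [h4, map_smul, smul_eq_mul]
    have h5 : l ^ k = l ^ (k - m) * l ^ m := by rw [← pow_add, Nat.sub_add_cancel h3]
    rw [h5]
    field_simp
  rw [h2, ← Finset.mul_sum, Polynomial.eval_finsetSum]
  congr 1
  have h6 : ∀ m ∈ Finset.range n, Polynomial.eval (k : ℂ)
      (C ((l ^ m)⁻¹ * φ ((N ^ m) x) / (m.factorial : ℂ)) * descPochhammer ℂ m) =
      (l ^ m)⁻¹ * (k.choose m : ℂ) * φ ((N ^ m) x) := by
    intro m _
    rw [Polynomial.eval_mul, Polynomial.eval_C, descPochhammer_eval_eq_descFactorial,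
      Nat.descFactorial_eq_factorial_mul_choose]
    have h7 : (m.factorial : ℂ) ≠ 0 := by exact_mod_cast m.factorial_ne_zero
    push_cast
    field_simp
  rw [Finset.sum_congr rfl h6]
  have hz1 : ∀ m, k + 1 ≤ m → (l ^ m)⁻¹ * (k.choose m : ℂ) * φ ((N ^ m) x) = 0 := by
    intro m hm
    rw [Nat.choose_eq_zero_of_lt (by omega)]
    simp
  have hz2 : ∀ m, n ≤ m → (l ^ m)⁻¹ * (k.choose m : ℂ) * φ ((N ^ m) x) = 0 := by
    intro m hm
    obtain ⟨d, rfl⟩ := Nat.exists_eq_add_of_le hm
    rw [add_comm n d, pow_add N, Module.End.mul_apply, h, map_zero, map_zero, mul_zero]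
  have e1 : ∑ m ∈ Finset.range (k + 1), (l ^ m)⁻¹ * (k.choose m : ℂ) * φ ((N ^ m) x) =
      ∑ m ∈ Finset.range (k + 1 + n), (l ^ m)⁻¹ * (k.choose m : ℂ) * φ ((N ^ m) x) :=
    Finset.sum_subset (Finset.range_mono (by omega)) fun m _ hm =>
      hz1 m (by simpa using hm)
  have e2 : ∑ m ∈ Finset.range n, (l ^ m)⁻¹ * (k.choose m : ℂ) * φ ((N ^ m) x) =
      ∑ m ∈ Finset.range (k + 1 + n), (l ^ m)⁻¹ * (k.choose m : ℂ) * φ ((N ^ m) x) :=
    Finset.sum_subset (Finset.range_mono (by omega)) fun m _ hm =>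
      hz2 m (by simpa using hm)
  rw [e1, e2]

/-- The matrix coefficients of the powers of an operator are exponential polynomials. -/
theorem exists_EP [FiniteDimensional ℂ V] (T : End ℂ V) (φ : V →ₗ[ℂ] ℂ) (x : V) :
    ∃ q : ℂ →₀ ℂ[X], (∀ l ∈ q.support, l ≠ 0 ∧ T.HasEigenvalue l) ∧
      (∀ l, 0 < (q l).natDegree → Blk T l) ∧ ∃ K : ℕ, ∀ k ≥ K, φ ((T ^ k) x) = EP q k := by
  classical
  have hx : x ∈ ⨆ l : ℂ, T.maxGenEigenspace l := by
    rw [Module.End.iSup_maxGenEigenspace_eq_top]
    trivial
  induction hx using Submodule.iSup_induction' with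
  | mem l x hx =>
    obtain ⟨n, hn⟩ := (Module.End.mem_maxGenEigenspace T l x).1 hx
    by_cases hl : l = 0
    · subst hl
      refine ⟨0, by simp, by simp, n, fun k hk => ?_⟩
      obtain ⟨d, rfl⟩ := Nat.exists_eq_add_of_le hk
      rw [zero_smul, sub_zero] at hn
      rw [add_comm n d, pow_add, Module.End.mul_apply, hn, map_zero, map_zero, EP_zero]
    · set P : ℂ[X] := ∑ j ∈ Finset.range n,
        C ((l ^ j)⁻¹ * φ (((T - l • (1 : End ℂ V)) ^ j) x) / (j.factorial : ℂ)) *
          descPochhammer ℂ j with hP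
      refine ⟨Finsupp.single l P, ?_, ?_, 0, fun k _ => ?_⟩
      · intro l' hl'
        have h1 := Finsupp.support_single_subset hl'
        rw [Finset.mem_singleton] at h1
        subst h1
        refine ⟨hl, ?_⟩
        have hx0 : x ≠ 0 := by
          rintro rfl
          rw [Finsupp.mem_support_iff, Finsupp.single_eq_same] at hl'
          apply hl'
          rw [hP]
          refine Finset.sum_eq_zero fun j _ => ?_
          simp
        have h2 : T.HasGenEigenvalue l' n := by
          rw [Module.End.hasGenEigenvalue_iff]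
          intro h3
          apply hx0
          have h4 : x ∈ T.genEigenspace l' n := by
            rw [Module.End.mem_genEigenspace_nat, LinearMap.mem_ker]
            exact hn
          rw [h3] at h4
          exact (Submodule.mem_bot ℂ).1 h4
        exact Module.End.hasEigenvalue_of_hasGenEigenvalue h2
      · intro l' hl'
        by_cases h1 : l' = l
        · subst h1
          rw [Finsupp.single_eq_same] at hl'
          by_contra h2
          have h3 := apply_eq_zero h2 n hn
          have h4 : P.natDegree ≤ 0 := by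
            rw [hP]
            refine Polynomial.natDegree_sum_le_of_forall_le _ _ fun j _ => ?_
            rcases j with _ | j
            · rw [descPochhammer_zero, mul_one, Polynomial.natDegree_C]
            · rw [pow_succ (T - l' • (1 : End ℂ V)), Module.End.mul_apply, h3, map_zero, map_zero]
              simp
          omega
        · rw [Finsupp.single_eq_of_ne h1] at hl'
          simp at hl'
      · rw [EP_single]
        exact pow_apply_sum T φ hl hn k
  | zero => exact ⟨0, by simp, by simp, 0, fun k _ => by simp [EP_zero]⟩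
  | add x y _ _ h1 h2 =>
    obtain ⟨q, a1, a2, K, a3⟩ := h1
    obtain ⟨r, b1, b2, K', b3⟩ := h2
    refine ⟨q + r, ?_, ?_, max K K', fun k hk => ?_⟩
    · intro l hl
      rcases Finset.mem_union.1 (Finsupp.support_add hl) with h | h
      · exact a1 l h
      · exact b1 l h
    · intro l hl
      rw [Finsupp.add_apply] at hl
      have h3 := Polynomial.natDegree_add_le (q l) (r l)
      rcases le_max_iff.1 h3 with h4 | h4
      · exact a2 l (by omega)
      · exact b2 l (by omega)
    · rw [map_add, map_add, a3 k (le_trans (le_max_left _ _) hk),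
        b3 k (le_trans (le_max_right _ _) hk), EP_add]

end Pool.Agent.R853.WNH
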