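import Pool.Agent.R853.WNH.Lin

/-!
# Dense matrix coefficients in finite dimension
-/

set_option autoImplicit false

namespace Pool.Agent.R853.WNH

open Filter Topology Polynomial Module

/-! ### One residue class -/

theorem cls (r : ℂ →₀ ℂ[X])
    (h : (∃ l ∈ r.support, Unb l (r l) ∧ ∀ l' ∈ r.support, Unb l' (r l') → l' ≠ l → ‖l'‖ < ‖l‖) ∨
      ∃ z : ℂ, ‖z‖ = 1 ∧ ∀ l ∈ r.support, Unb l (r l) → l ≠ 0 ∧ ∃ e : ℤ, l = ‖l‖ * z ^ e) :
    ∃ E : Finset ℂ, ∀ ζ : ℂ, ‖ζ‖ = 1 → ζ ∉ E → ∀ᶠ ρ : ℝ in atTop, ∀ F : Ultrafilter ℕ,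
      (F : Filter ℕ) ≤ atTop → ¬ Tendsto (EP r) F (𝓝 (ρ * ζ)) := by
  classical
  set g : ℂ →₀ ℂ[X] := r.filter fun l => Unb l (r l) with hg
  set b : ℂ →₀ ℂ[X] := r.filter fun l => ¬ Unb l (r l) with hb
  have hgb : ∀ m, EP r m = EP g m + EP b m := by
    intro m
    rw [← EP_add, hg, hb, Finsupp.filter_add_filter_not]
  have hgs : ∀ l ∈ g.support, l ∈ r.support ∧ Unb l (r l) ∧ g l = r l := by
    intro l hl
    rw [hg, Finsupp.support_filter, Finset.mem_filter] at hl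
    exact ⟨hl.1, hl.2, Finsupp.filter_apply_pos _ _ hl.2⟩
  have hsg : ∀ l ∈ r.support, Unb l (r l) → l ∈ g.support := by
    intro l hl hu
    rw [hg, Finsupp.support_filter, Finset.mem_filter]
    exact ⟨hl, hu⟩
  obtain ⟨C, hC⟩ : ∃ C : ℝ, ∀ m : ℕ, ‖EP b m‖ ≤ C := by
    apply bdd_EP
    intro l hl
    rw [hb, Finsupp.support_filter, Finset.mem_filter] at hl
    have hbl : b l = r l := Finsupp.filter_apply_pos _ _ hl.2
    rw [hbl]
    exact hl.2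
  have hlim : ∀ (F : Ultrafilter ℕ) (w : ℂ), Tendsto (EP r) F (𝓝 w) →
      ∃ v : ℂ, ‖v - w‖ ≤ C ∧ Tendsto (EP g) F (𝓝 v) := by
    intro F w hw
    obtain ⟨β, hβ, hβ'⟩ := (isCompact_closedBall (0 : ℂ) C).ultrafilter_le_nhds (F.map (EP b)) (by
      rw [Filter.le_principal_iff]
      have h1 : ∀ m, EP b m ∈ Metric.closedBall (0 : ℂ) C := fun m => by simpa using hC m
      exact Filter.Eventually.of_forall (f := (F : Filter ℕ)) h1)
    have h1 : Tendsto (EP b) F (𝓝 β) := hβ'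
    refine ⟨w - β, ?_, ?_⟩
    · have h2 : ‖β‖ ≤ C := by simpa using hβ
      rwa [sub_sub_cancel_left, norm_neg]
    · refine (hw.sub h1).congr fun m => ?_
      rw [hgb m]
      ring
  rcases h with ⟨l, hl, hu, htop⟩ | ⟨z, hz, hrk⟩
  · refine ⟨∅, fun ζ _ _ => Eventually.of_forall fun ρ F hF hT => ?_⟩
    obtain ⟨v, -, hv⟩ := hlim F _ hT
    have h1 : Tendsto (fun m => ‖EP g m‖) atTop atTop := by
      refine tendsto_top g (hsg l hl hu) ?_ fun l' hl' hne => ?_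
      · rw [(hgs l (hsg l hl hu)).2.2]
        exact hu
      · exact htop l' (hgs l' hl').1 (hgs l' hl').2.1 hne
    exact not_tendsto_nhds_of_tendsto_atTop (h1.mono_left hF) _ hv.norm
  · obtain ⟨D, γ, hγ, h1⟩ := rank_one_EP g hz fun l hl => hrk l (hgs l hl).1 (hgs l hl).2.1
    obtain ⟨E, hE⟩ := avoid D γ hγ
    refine ⟨E, fun ζ hζ hζE => ?_⟩
    filter_upwards [hE ζ hζ hζE C] with ρ hρ F hF hT
    obtain ⟨v, hvw, hv⟩ := hlim F _ hT
    exact hρ v hvw (h1 F hF v hv)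

/-- The exponential polynomial on a residue class. -/
noncomputable def res (q : ℂ →₀ ℂ[X]) (N j : ℕ) : ℂ →₀ ℂ[X] :=
  q.sum fun l P => Finsupp.single (l ^ N) (C (l ^ j) * P.comp (C (N : ℂ) * X + C (j : ℂ)))

theorem EP_sum (s : Finset ℂ) (f : ℂ → (ℂ →₀ ℂ[X])) (m : ℕ) :
    EP (∑ l ∈ s, f l) m = ∑ l ∈ s, EP (f l) m := by
  classical
  induction s using Finset.induction_on with
  | empty => simp [EP_zero]
  | insert l s hl ih => rw [Finset.sum_insert hl, Finset.sum_insert hl, EP_add, ih]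

theorem EP_res (q : ℂ →₀ ℂ[X]) (N j m : ℕ) : EP (res q N j) m = EP q (N * m + j) := by
  rw [res, Finsupp.sum, EP_sum, EP, Finsupp.sum]
  refine Finset.sum_congr rfl fun l _ => ?_
  rw [EP_single, Polynomial.eval_mul, Polynomial.eval_C, Polynomial.eval_comp,
    Polynomial.eval_add, Polynomial.eval_mul, Polynomial.eval_C, Polynomial.eval_C,
    Polynomial.eval_X, pow_add, pow_mul]
  push_cast
  ring

theorem res_apply (q : ℂ →₀ ℂ[X]) (N j : ℕ) (L : ℂ) : res q N j L =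
    ∑ l ∈ q.support, if l ^ N = L then C (l ^ j) * (q l).comp (C (N : ℂ) * X + C (j : ℂ)) else 0 := by
  classical
  rw [res, Finsupp.sum, Finsupp.finsetSum_apply]
  refine Finset.sum_congr rfl fun l _ => ?_
  rw [Finsupp.single_apply]

theorem mem_res {q : ℂ →₀ ℂ[X]} {N j : ℕ} {L : ℂ} (h : L ∈ (res q N j).support) :
    ∃ l ∈ q.support, l ^ N = L := by
  by_contra h1
  push Not at h1
  rw [Finsupp.mem_support_iff, res_apply] at h
  exact h (Finset.sum_eq_zero fun l hl => if_neg (h1 l hl))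

theorem deg_res {q : ℂ →₀ ℂ[X]} {N j : ℕ} {L : ℂ} (h : 0 < (res q N j L).natDegree) :
    ∃ l ∈ q.support, l ^ N = L ∧ 0 < (q l).natDegree := by
  by_contra h1
  push Not at h1
  have h2 : (res q N j L).natDegree ≤ 0 := by
    rw [res_apply]
    refine Polynomial.natDegree_sum_le_of_forall_le _ _ fun l hl => ?_
    split_ifs with h3
    · have h4 : (q l).natDegree = 0 := Nat.le_zero.1 (h1 l hl h3)
      rw [Polynomial.eq_C_of_natDegree_eq_zero h4, Polynomial.C_comp, ← Polynomial.C_mul,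
        Polynomial.natDegree_C]
    · simp
  omega

/-! ### Phases -/

/-- The phase. -/
noncomputable def ph (l : ℂ) : ℂ := l / ‖l‖

theorem norm_ph {l : ℂ} (h : l ≠ 0) : ‖ph l‖ = 1 := by
  rw [ph, norm_div, Complex.norm_real, norm_norm, div_self (norm_ne_zero_iff.2 h)]

theorem ph_ne {l : ℂ} (h : l ≠ 0) : ph l ≠ 0 := by
  intro h1
  have h2 := norm_ph h
  rw [h1, norm_zero] at h2
  exact zero_ne_one h2

theorem eq_norm_mul_ph {l : ℂ} (h : l ≠ 0) : l = ‖l‖ * ph l := by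
  have h1 : (‖l‖ : ℂ) ≠ 0 := by exact_mod_cast norm_ne_zero_iff.2 h
  rw [ph, mul_div_cancel₀ _ h1]

theorem ph_eq_self {l : ℂ} (h : ‖l‖ = 1) : ph l = l := by rw [ph, h]; simp

/-- Two numbers are independent. -/
def Indep (z w : ℂ) : Prop := ∀ a b : ℤ, z ^ a * w ^ b = 1 → a = 0 ∧ b = 0

theorem Indep.symm {z w : ℂ} (h : Indep z w) : Indep w z := fun a b hab => by
  have := h b a (by rwa [mul_comm])
  exact ⟨this.2, this.1⟩

theorem exists_pow_of_not_indep {z w : ℂ}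
    (hinf : ∀ t : ℕ, 0 < t → w ^ t ≠ 1) (h : ¬ Indep z w) :
    ∃ t : ℕ, 0 < t ∧ ∃ e : ℤ, z ^ t = w ^ e := by
  rw [Indep] at h
  push Not at h
  obtain ⟨a, b, h1, h2⟩ := h
  have ha : a ≠ 0 := by
    intro ha
    have hb := h2 ha
    rw [ha, zpow_zero, one_mul] at h1
    rcases lt_or_gt_of_ne hb with h3 | h3
    · apply hinf (-b).toNat (by omega)
      rw [← zpow_natCast, Int.toNat_of_nonneg (by omega), zpow_neg, h1, inv_one]
    · apply hinf b.toNat (by omega)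
      rw [← zpow_natCast, Int.toNat_of_nonneg (by omega), h1]
  rcases lt_or_gt_of_ne ha with h3 | h3
  · refine ⟨(-a).toNat, by omega, b, ?_⟩
    rw [← zpow_natCast, Int.toNat_of_nonneg (by omega), zpow_neg]
    exact inv_eq_of_mul_eq_one_right h1
  · refine ⟨a.toNat, by omega, -b, ?_⟩
    rw [← zpow_natCast, Int.toNat_of_nonneg (by omega), zpow_neg]
    exact eq_inv_of_mul_eq_one_left h1

theorem exists_N (s : Finset ℂ) : ∃ N : ℕ, 0 < N ∧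
    ∀ l ∈ s, ∀ l' ∈ s, ((∃ t : ℕ, 0 < t ∧ (l / l') ^ t = 1) → (l / l') ^ N = 1) ∧
      ((∀ t : ℕ, 0 < t → ph l' ^ t ≠ 1) → ¬ Indep (ph l) (ph l') →
        ∃ e : ℤ, ph l ^ N = ph l' ^ e) := by
  classical
  have h1 : ∀ p : ℂ × ℂ, ∃ t : ℕ, 0 < t ∧ (p.1 ∈ s → p.2 ∈ s →
      ((∃ t : ℕ, 0 < t ∧ (p.1 / p.2) ^ t = 1) → (p.1 / p.2) ^ t = 1) ∧
      ((∀ t : ℕ, 0 < t → ph p.2 ^ t ≠ 1) → ¬ Indep (ph p.1) (ph p.2) →
        ∃ e : ℤ, ph p.1 ^ t = ph p.2 ^ e)) := by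
    intro p
    by_cases hp : p.1 ∈ s ∧ p.2 ∈ s
    · obtain ⟨t1, ht1, ht1'⟩ : ∃ t : ℕ, 0 < t ∧
          ((∃ t : ℕ, 0 < t ∧ (p.1 / p.2) ^ t = 1) → (p.1 / p.2) ^ t = 1) := by
        by_cases h : ∃ t : ℕ, 0 < t ∧ (p.1 / p.2) ^ t = 1
        · obtain ⟨t, h2, h3⟩ := h
          exact ⟨t, h2, fun _ => h3⟩
        · exact ⟨1, one_pos, fun h' => absurd h' h⟩
      obtain ⟨t2, ht2, ht2'⟩ : ∃ t : ℕ, 0 < t ∧ ((∀ t : ℕ, 0 < t → ph p.2 ^ t ≠ 1) →
          ¬ Indep (ph p.1) (ph p.2) → ∃ e : ℤ, ph p.1 ^ t = ph p.2 ^ e) := by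
        by_cases h : (∀ t : ℕ, 0 < t → ph p.2 ^ t ≠ 1) ∧ ¬ Indep (ph p.1) (ph p.2)
        · obtain ⟨t, h2, h3⟩ := exists_pow_of_not_indep h.1 h.2
          exact ⟨t, h2, fun _ _ => h3⟩
        · exact ⟨1, one_pos, fun h' h'' => absurd ⟨h', h''⟩ h⟩
      refine ⟨t1 * t2, Nat.mul_pos ht1 ht2, fun _ _ => ⟨fun h => ?_, fun h h' => ?_⟩⟩
      · rw [pow_mul, ht1' h, one_pow]
      · obtain ⟨e, he⟩ := ht2' h h'
        refine ⟨e * t1, ?_⟩
        rw [mul_comm, pow_mul, he, zpow_mul, zpow_natCast]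
    · exact ⟨1, one_pos, fun h h' => absurd ⟨h, h'⟩ hp⟩
  choose t ht ht' using h1
  refine ⟨∏ p ∈ s ×ˢ s, t p, Finset.prod_pos fun p _ => ht p, fun l hl l' hl' => ?_⟩
  obtain ⟨c, hc⟩ : t (l, l') ∣ ∏ p ∈ s ×ˢ s, t p :=
    Finset.dvd_prod_of_mem _ (Finset.mem_product.2 ⟨hl, hl'⟩)
  obtain ⟨h2, h3⟩ := ht' (l, l') hl hl'
  refine ⟨fun h => ?_, fun h h' => ?_⟩
  · rw [hc, pow_mul, h2 h, one_pow]
  · obtain ⟨e, he⟩ := h3 h h'
    refine ⟨e * c, ?_⟩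
    rw [hc, pow_mul, he, zpow_mul, zpow_natCast]

/-! ### The dichotomy -/

section

variable {V : Type*} [AddCommGroup V] [Module ℂ V] (T : End ℂ V)

/-- Condition (C1). -/
def D1 : Prop := ∃ l m : ℂ, T.HasEigenvalue l ∧ T.HasEigenvalue m ∧ ‖l‖ = ‖m‖ ∧ 1 < ‖m‖ ∧
  Indep (ph l) (ph m)

/-- Condition (C2). -/
def D2 : Prop := ∃ l m : ℂ, ‖l‖ = 1 ∧ ‖m‖ = 1 ∧ Indep l m ∧ Blk T l ∧ Blk T m

/-- Condition (C3). -/
def D3 : Prop := ∃ l m k : ℂ, T.HasEigenvalue l ∧ T.HasEigenvalue m ∧ T.HasEigenvalue k ∧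
  ‖l‖ = ‖m‖ ∧ ‖k‖ < ‖m‖ ∧ 1 < ‖k‖ ∧ (∀ t : ℕ, 0 < t → (l / m) ^ t ≠ 1) ∧ Indep (ph l) (ph k)

/-- Condition (C4). -/
def D4 : Prop := ∃ l m k : ℂ, T.HasEigenvalue l ∧ T.HasEigenvalue m ∧ ‖k‖ = 1 ∧ Blk T k ∧
  ‖l‖ = ‖m‖ ∧ 1 < ‖m‖ ∧ (∀ t : ℕ, 0 < t → (l / m) ^ t ≠ 1) ∧ Indep (ph l) k

variable {T}

/-- If one of two phases with a quotient of infinite order has infinite order, then all relevant
phases depend on it. -/
theorem dep_aux (h1 : ¬ D1 T) (h2 : ¬ D2 T) (h3 : ¬ D3 T) (h4 : ¬ D4 T) {l m k : ℂ}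
    (hl : T.HasEigenvalue l) (hm : T.HasEigenvalue m) (hk : T.HasEigenvalue k)
    (hlm : ‖l‖ = ‖m‖) (hinf : ∀ t : ℕ, 0 < t → (l / m) ^ t ≠ 1) (hkm : ‖k‖ ≤ ‖m‖)
    (hk1 : 1 ≤ ‖k‖) (hbk : ‖k‖ = 1 → Blk T k) (hbl : ‖l‖ = 1 → Blk T l) :
    ¬ Indep (ph k) (ph l) := by
  intro hi
  rcases hk1.lt_or_eq with h5 | h5
  · rcases hkm.lt_or_eq with h6 | h6
    · exact h3 ⟨l, m, k, hl, hm, hk, hlm, h6, h5, hinf, hi.symm⟩
    · exact h1 ⟨k, l, hk, hl, by rw [h6, hlm], by rw [hlm, ← h6]; exact h5, hi⟩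
  · have h7 := hbk h5.symm
    rw [ph_eq_self h5.symm] at hi
    rcases hkm.lt_or_eq with h6 | h6
    · exact h4 ⟨l, m, k, hl, hm, h5.symm, h7, hlm, by rw [h5]; exact h6, hinf, hi.symm⟩
    · have h8 : ‖l‖ = 1 := by rw [hlm, ← h6, h5]
      rw [ph_eq_self h8] at hi
      exact h2 ⟨k, l, h5.symm, h8, hi, h7, hbl h8⟩

theorem dichotomy (h1 : ¬ D1 T) (h2 : ¬ D2 T) (h3 : ¬ D3 T) (h4 : ¬ D4 T) {q : ℂ →₀ ℂ[X]}
    (hq : ∀ l ∈ q.support, l ≠ 0 ∧ T.HasEigenvalue l) (hb : ∀ l, 0 < (q l).natDegree → Blk T l)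
    {N : ℕ} (hN : 0 < N) (hN' : ∀ l ∈ q.support, ∀ l' ∈ q.support,
      ((∃ t : ℕ, 0 < t ∧ (l / l') ^ t = 1) → (l / l') ^ N = 1) ∧
      ((∀ t : ℕ, 0 < t → ph l' ^ t ≠ 1) → ¬ Indep (ph l) (ph l') →
        ∃ e : ℤ, ph l ^ N = ph l' ^ e)) (j : ℕ) :
    (∃ l ∈ (res q N j).support, Unb l (res q N j l) ∧ ∀ l' ∈ (res q N j).support,
      Unb l' (res q N j l') → l' ≠ l → ‖l'‖ < ‖l‖) ∨
    ∃ z : ℂ, ‖z‖ = 1 ∧ ∀ l ∈ (res q N j).support, Unb l (res q N j l) →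
      l ≠ 0 ∧ ∃ e : ℤ, l = ‖l‖ * z ^ e := by
  classical
  set r := res q N j with hr
  have key : ∀ L ∈ r.support, Unb L (r L) → ∃ l ∈ q.support, l ^ N = L ∧ 1 ≤ ‖l‖ ∧
      (‖l‖ = 1 → Blk T l) := by
    intro L hL hu
    rcases hu with hu | ⟨hu, hu'⟩
    · obtain ⟨l, hl, rfl⟩ := mem_res hL
      have h5 : 1 < ‖l‖ := by
        by_contra h5
        push Not at h5
        rw [norm_pow] at hu
        exact absurd (pow_le_one₀ (norm_nonneg l) h5 (n := N)) (not_le.2 hu)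
      exact ⟨l, hl, rfl, h5.le, fun h6 => absurd h6 h5.ne'⟩
    · obtain ⟨l, hl, rfl, hd⟩ := deg_res hu'
      have h5 : ‖l‖ = 1 := by
        rw [norm_pow] at hu
        exact (pow_eq_one_iff_of_nonneg (norm_nonneg l) hN.ne').1 hu
      exact ⟨l, hl, rfl, h5.ge, fun _ => hb l hd⟩
  by_cases hU : ∃ L ∈ r.support, Unb L (r L)
  · obtain ⟨L0, hL0, hmax⟩ := Finset.exists_max_image (r.support.filter fun L => Unb L (r L))
      (fun L => ‖L‖) (by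
        obtain ⟨L, h5, h6⟩ := hU
        exact ⟨L, Finset.mem_filter.2 ⟨h5, h6⟩⟩)
    obtain ⟨hL0s, hL0u⟩ := Finset.mem_filter.1 hL0
    by_cases huniq : ∀ L ∈ r.support, Unb L (r L) → L ≠ L0 → ‖L‖ < ‖L0‖
    · exact Or.inl ⟨L0, hL0s, hL0u, huniq⟩
    · right
      push Not at huniq
      obtain ⟨L1, hL1s, hL1u, hne, hle⟩ := huniq
      have hnorm : ‖L1‖ = ‖L0‖ := le_antisymm (hmax L1 (Finset.mem_filter.2 ⟨hL1s, hL1u⟩)) hle
      obtain ⟨l0, hl0, rfl, h0a, h0b⟩ := key L0 hL0s hL0u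
      obtain ⟨l1, hl1, rfl, h1a, h1b⟩ := key L1 hL1s hL1u
      have hl0' := (hq l0 hl0).1
      have hl1' := (hq l1 hl1).1
      have hn : ‖l0‖ = ‖l1‖ := by
        rw [norm_pow, norm_pow] at hnorm
        exact ((pow_left_inj₀ (norm_nonneg _) (norm_nonneg _) hN.ne').1 hnorm).symm
      have hinf : ∀ t : ℕ, 0 < t → (l0 / l1) ^ t ≠ 1 := by
        intro t ht h5
        have h6 := (hN' l0 hl0 l1 hl1).1 ⟨t, ht, h5⟩
        rw [div_pow, div_eq_one_iff_eq (pow_ne_zero _ hl1')] at h6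
        exact hne h6.symm
      have hinf' : ∀ t : ℕ, 0 < t → (l1 / l0) ^ t ≠ 1 := by
        intro t ht h5
        apply hinf t ht
        rw [← inv_div, inv_pow, h5, inv_one]
      -- one of the phases has infinite order
      obtain ⟨a, ha, hainf, hdep⟩ : ∃ a ∈ q.support, (∀ t : ℕ, 0 < t → ph a ^ t ≠ 1) ∧
          ∀ k ∈ q.support, ‖k‖ ≤ ‖l0‖ → 1 ≤ ‖k‖ → (‖k‖ = 1 → Blk T k) →
            ¬ Indep (ph k) (ph a) := by
        by_cases h5 : ∀ t : ℕ, 0 < t → ph l0 ^ t ≠ 1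
        · exact ⟨l0, hl0, h5, fun k hk hk1 hk2 hk3 => dep_aux h1 h2 h3 h4 (hq l0 hl0).2
            (hq l1 hl1).2 (hq k hk).2 hn hinf (hn ▸ hk1) hk2 hk3 h0b⟩
        · refine ⟨l1, hl1, fun t ht h6 => ?_, fun k hk hk1 hk2 hk3 => dep_aux h1 h2 h3 h4
            (hq l1 hl1).2 (hq l0 hl0).2 (hq k hk).2 hn.symm hinf' hk1 hk2 hk3 h1b⟩
          push Not at h5
          obtain ⟨s, hs, hs'⟩ := h5
          apply hinf (s * t) (Nat.mul_pos hs ht)
          have h7 : l0 / l1 = ph l0 / ph l1 := by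
            rw [ph, ph, hn]
            have h8 : (‖l1‖ : ℂ) ≠ 0 := by exact_mod_cast norm_ne_zero_iff.2 hl1'
            field_simp
          rw [h7, div_pow, pow_mul, hs', one_pow, mul_comm s t, pow_mul, h6, one_pow, div_one]
      refine ⟨ph a, norm_ph (hq a ha).1, fun L hL hLu => ?_⟩
      obtain ⟨l, hl, rfl, hla, hlb⟩ := key L hL hLu
      have hl' := (hq l hl).1
      refine ⟨pow_ne_zero _ hl', ?_⟩
      have h5 : ‖l‖ ≤ ‖l0‖ := by
        have h6 := hmax (l ^ N) (Finset.mem_filter.2 ⟨hL, hLu⟩)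
        simp only [norm_pow] at h6
        exact le_of_pow_le_pow_left₀ hN.ne' (norm_nonneg _) h6
      obtain ⟨e, he⟩ := (hN' l hl a ha).2 hainf (hdep l hl h5 hla hlb)
      refine ⟨e, ?_⟩
      rw [← he, norm_pow, Complex.ofReal_pow, ← mul_pow, ← eq_norm_mul_ph hl']
  · right
    refine ⟨1, norm_one, fun L hL hLu => absurd ⟨L, hL, hLu⟩ hU⟩

end

/-! ### The main theorem -/

theorem exists_cls {u : ℕ → ℂ} {N : ℕ} (hN : 0 < N) {w : ℂ} {F : Ultrafilter ℕ}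
    (hF : (F : Filter ℕ) ≤ atTop) (h : Tendsto u F (𝓝 w)) :
    ∃ j < N, ∃ G : Ultrafilter ℕ, (G : Filter ℕ) ≤ atTop ∧
      Tendsto (fun m => u (N * m + j)) G (𝓝 w) := by
  obtain ⟨j, hj, hj'⟩ := Ultrafilter.eq_pure_of_finite_mem (f := F.map (· % N))
    (s := Set.Iio N) (Set.finite_Iio N) (by
      rw [Ultrafilter.mem_map]
      exact Filter.mem_of_superset Filter.univ_mem fun k _ => Nat.mod_lt _ hN)
  have h1 : ∀ᶠ k in (F : Filter ℕ), k % N = j := by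
    have h2 : {j} ∈ F.map (· % N) := by
      rw [hj']
      exact rfl
    exact h2
  refine ⟨j, hj, F.map (· / N), ?_, ?_⟩
  · have h2 : Tendsto (fun k => k / N) atTop atTop := by
      refine tendsto_atTop.2 fun b => ?_
      filter_upwards [eventually_ge_atTop (b * N)] with k hk
      exact (Nat.le_div_iff_mul_le hN).2 hk
    exact h2.mono_left hF
  · have h3 : Tendsto (fun k => u (N * (k / N) + j)) F (𝓝 w) := by
      refine h.congr' ?_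
      filter_upwards [h1] with k hk
      rw [← hk, Nat.div_add_mod]
    exact h3

theorem exists_ultra {u : ℕ → ℂ} (hd : Dense (Set.range u)) (w : ℂ) :
    ∃ F : Ultrafilter ℕ, (F : Filter ℕ) ≤ atTop ∧ Tendsto u F (𝓝 w) := by
  have h1 : MapClusterPt w atTop u := by
    rw [mapClusterPt_iff_frequently]
    intro s hs
    rw [frequently_atTop]
    intro K
    have h2 : Dense (Set.range u \ (u '' Set.Iio K)) :=
      hd.sdiff_finite ((Set.finite_Iio K).image u)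
    obtain ⟨y, ⟨⟨k, rfl⟩, hk⟩, hy⟩ := h2.inter_nhds_nonempty hs
    refine ⟨k, ?_, hy⟩
    by_contra h3
    push Not at h3
    exact hk ⟨k, h3, rfl⟩
  exact mapClusterPt_iff_ultrafilter.1 h1

theorem infinite_circle : {z : ℂ | ‖z‖ = 1}.Infinite := by
  have h1 : {z : ℂ | ‖z‖ = 1} = Metric.sphere (0 : ℂ) 1 := by
    ext z
    simp
  rw [h1]
  refine IsPreconnected.infinite_of_nontrivial (isPreconnected_sphere ?_ 0 1)
    ⟨1, by simp, -1, by simp, ?_⟩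
  · rw [Complex.rank_real_complex]
    norm_num
  · norm_num

/-- If a matrix coefficient of the powers of an operator on a finite-dimensional space is dense
in the complex plane, then one of the four conditions holds. -/
theorem main {V : Type*} [AddCommGroup V] [Module ℂ V] [FiniteDimensional ℂ V] (T : End ℂ V)
    (φ : V →ₗ[ℂ] ℂ) (x : V) (hd : Dense (Set.range fun k : ℕ => φ ((T ^ k) x))) :
    D1 T ∨ D2 T ∨ D3 T ∨ D4 T := by
  classical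
  by_contra hcon
  push Not at hcon
  obtain ⟨h1, h2, h3, h4⟩ := hcon
  obtain ⟨q, hq, hb, K, hK⟩ := exists_EP T φ x
  obtain ⟨N, hN, hN'⟩ := exists_N q.support
  have h5 : ∀ j : ℕ, ∃ E : Finset ℂ, ∀ ζ : ℂ, ‖ζ‖ = 1 → ζ ∉ E → ∀ᶠ ρ : ℝ in atTop,
      ∀ F : Ultrafilter ℕ, (F : Filter ℕ) ≤ atTop →
        ¬ Tendsto (EP (res q N j)) F (𝓝 (ρ * ζ)) := fun j =>
    cls _ (dichotomy h1 h2 h3 h4 hq hb hN hN' j)
  choose E hE using h5
  obtain ⟨ζ, hζ, hζE⟩ := infinite_circle.exists_notMem_finset ((Finset.range N).biUnion E)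
  have h6 : ∀ᶠ ρ : ℝ in atTop, ∀ j ∈ Finset.range N, ∀ F : Ultrafilter ℕ,
      (F : Filter ℕ) ≤ atTop → ¬ Tendsto (EP (res q N j)) F (𝓝 (ρ * ζ)) := by
    rw [Filter.eventually_all_finset]
    intro j hj
    exact hE j ζ hζ fun h => hζE (Finset.mem_biUnion.2 ⟨j, hj, h⟩)
  obtain ⟨ρ, hρ⟩ := h6.exists
  obtain ⟨F, hF, hF'⟩ := exists_ultra hd (ρ * ζ)
  obtain ⟨j, hj, G, hG, hG'⟩ := exists_cls hN hF hF'
  refine hρ j (Finset.mem_range.2 hj) G hG (hG'.congr' ?_)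
  filter_upwards [hG (Ici_mem_atTop K)] with m hm
  rw [EP_res, hK]
  have : K ≤ m := hm
  nlinarith

end Pool.Agent.R853.WNH
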