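import Mathlib

/-!
# Exponential polynomials with phases in a group of rank one
-/

set_option autoImplicit false

namespace Pool.Agent.R853.WNH

open Filter Topology

/-- The function `exp (s m) m ^ k`. -/
noncomputable def mono (p : ℝ × ℕ) (m : ℕ) : ℂ := ((Real.exp (p.1 * m) * (m : ℝ) ^ p.2 : ℝ) : ℂ)

theorem mono_ne {p : ℝ × ℕ} {m : ℕ} (hm : 1 ≤ m) : mono p m ≠ 0 := by
  have h : (0 : ℝ) < m := by exact_mod_cast hm
  rw [mono]
  exact_mod_cast (by positivity : Real.exp (p.1 * m) * (m : ℝ) ^ p.2 ≠ 0)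

theorem mono_zero (m : ℕ) : mono 0 m = 1 := by simp [mono]

theorem mono_add (p q : ℝ × ℕ) (m : ℕ) : mono (p + q) m = mono p m * mono q m := by
  rw [mono, mono, mono, ← Complex.ofReal_mul]
  congr 1
  rw [Prod.fst_add, Prod.snd_add, add_mul, Real.exp_add, pow_add]
  ring

theorem conj_mono (p : ℝ × ℕ) (m : ℕ) : (starRingEnd ℂ) (mono p m) = mono p m :=
  Complex.conj_ofReal _

/-- The ring of the exponential polynomials. -/
abbrev EE := AddMonoidAlgebra ℂ (ℝ × ℕ)

/-- The value of an exponential polynomial. -/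
noncomputable def ev (m : ℕ) : EE →ₐ[ℂ] ℂ :=
  AddMonoidAlgebra.lift ℂ ℂ (ℝ × ℕ)
    { toFun := fun p => mono p.toAdd m
      map_one' := mono_zero m
      map_mul' := fun _ _ => mono_add _ _ m }

theorem ev_apply (m : ℕ) (E : EE) : ev m E = E.coeff.sum fun p a => a * mono p m := by
  rw [ev, AddMonoidAlgebra.lift_apply]
  rfl

theorem ev_single (m : ℕ) (p : ℝ × ℕ) (a : ℂ) :
    ev m (AddMonoidAlgebra.single p a) = a * mono p m := by
  rw [ev_apply, AddMonoidAlgebra.coeff_single, Finsupp.sum_single_index]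
  simp

theorem tendsto_mono {p q : ℝ × ℕ} (h : toLex p < toLex q) :
    Tendsto (fun m => mono p m / mono q m) atTop (𝓝 0) := by
  have h1 : Tendsto (fun m : ℕ => Real.exp (p.1 * m) * (m : ℝ) ^ p.2 /
      (Real.exp (q.1 * m) * (m : ℝ) ^ q.2)) atTop (𝓝 0) := by
    rcases Prod.Lex.toLex_lt_toLex.1 h with h1 | ⟨h1, h2⟩
    · have h3 : Tendsto (fun m : ℕ => (m : ℝ) ^ p.2 * (Real.exp (p.1 - q.1)) ^ m) atTop (𝓝 0) := by
        apply tendsto_pow_const_mul_const_pow_of_abs_lt_one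
        rw [abs_of_pos (Real.exp_pos _)]
        exact Real.exp_lt_one_iff.2 (by linarith)
      refine squeeze_zero' (Eventually.of_forall fun m => by positivity) ?_ h3
      filter_upwards [eventually_ge_atTop 1] with m hm
      have h4 : (1 : ℝ) ≤ (m : ℝ) ^ q.2 := one_le_pow₀ (by exact_mod_cast hm)
      rw [← Real.exp_nat_mul, div_le_iff₀ (by positivity)]
      have h5 : Real.exp (p.1 * m) = Real.exp (m * (p.1 - q.1)) * Real.exp (q.1 * m) := by
        rw [← Real.exp_add]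
        ring_nf
      rw [h5]
      have h6 : 0 ≤ (m : ℝ) ^ p.2 * Real.exp (m * (p.1 - q.1)) * Real.exp (q.1 * m) := by positivity
      nlinarith
    · have h3 : Tendsto (fun m : ℕ => (m : ℝ) ^ p.2 / (m : ℝ) ^ q.2) atTop (𝓝 0) :=
        (tendsto_pow_div_pow_atTop_zero h2).comp tendsto_natCast_atTop_atTop
      refine h3.congr fun m => ?_
      rw [h1, mul_div_mul_left _ _ (Real.exp_pos _).ne']
  have h2 := (Complex.continuous_ofReal.tendsto 0).comp h1
  rw [Complex.ofReal_zero] at h2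
  refine h2.congr fun m => ?_
  simp [mono]

theorem tendsto_ev {E : EE} {q : ℝ × ℕ} (h : ∀ p ∈ E.coeff.support, toLex p ≤ toLex q) :
    Tendsto (fun m => ev m E / mono q m) atTop (𝓝 (E.coeff q)) := by
  classical
  have h1 : ∀ m, ev m E / mono q m =
      ∑ p ∈ E.coeff.support, E.coeff p * (mono p m / mono q m) := by
    intro m
    rw [ev_apply, Finsupp.sum, Finset.sum_div]
    exact Finset.sum_congr rfl fun p _ => by ring
  have h2 : E.coeff q = ∑ p ∈ E.coeff.support, if p = q then E.coeff p else 0 := by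
    rw [Finset.sum_ite_eq' E.coeff.support q]
    split_ifs with h3
    · rfl
    · exact Finsupp.notMem_support_iff.1 h3
  rw [h2]
  simp only [h1]
  refine tendsto_finsetSum _ fun p hp => ?_
  by_cases hpq : p = q
  · subst hpq
    rw [if_pos rfl]
    refine (tendsto_const_nhds (x := E.coeff p)).congr' ?_
    filter_upwards [eventually_ge_atTop 1] with m hm
    rw [div_self (mono_ne hm), mul_one]
  · rw [if_neg hpq]
    have h3 : toLex p < toLex q := lt_of_le_of_ne (h p hp) fun h4 => hpq h4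
    simpa using (tendsto_mono h3).const_mul (E.coeff p)

/-- A relation between the products of the powers of two polynomials. -/
theorem exists_rel {A : Type} [CommRing A] [Nontrivial A] (L : ℕ) (g h : Polynomial A)
    (hg : g.natDegree ≤ 2 * L) (hh : h.natDegree ≤ 2 * L) :
    ∃ c : Fin (4 * L + 2) × Fin (4 * L + 2) → A, c ≠ 0 ∧
      ∑ i, Polynomial.C (c i) * (Polynomial.X ^ ((2 * (4 * L + 1) - i.1 - i.2) * L) *
        g ^ (i.1 : ℕ) * h ^ (i.2 : ℕ)) = 0 := by
  classical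
  set B : Fin (4 * L + 2) × Fin (4 * L + 2) → Polynomial A := fun i =>
    Polynomial.X ^ ((2 * (4 * L + 1) - i.1 - i.2) * L) * g ^ (i.1 : ℕ) * h ^ (i.2 : ℕ) with hB
  have hdeg : ∀ i, (B i).natDegree ≤ 4 * (4 * L + 1) * L := by
    intro i
    have h1 : (g ^ (i.1 : ℕ)).natDegree ≤ i.1 * (2 * L) :=
      Polynomial.natDegree_pow_le.trans (Nat.mul_le_mul_left _ hg)
    have h2 : (h ^ (i.2 : ℕ)).natDegree ≤ i.2 * (2 * L) :=
      Polynomial.natDegree_pow_le.trans (Nat.mul_le_mul_left _ hh)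
    have h3 : (B i).natDegree ≤ (2 * (4 * L + 1) - i.1 - i.2) * L + i.1 * (2 * L) +
        i.2 * (2 * L) := by
      refine Polynomial.natDegree_mul_le.trans (Nat.add_le_add ?_ h2)
      refine Polynomial.natDegree_mul_le.trans (Nat.add_le_add ?_ h1)
      exact Polynomial.natDegree_X_pow_le _
    refine h3.trans ?_
    have h4 : (i.1 : ℕ) ≤ 4 * L + 1 := by omega
    have h5 : (i.2 : ℕ) ≤ 4 * L + 1 := by omega
    have h6 : (2 * (4 * L + 1) - (i.1 : ℕ) - i.2) + i.1 + i.2 = 2 * (4 * L + 1) := by omega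
    calc (2 * (4 * L + 1) - (i.1 : ℕ) - i.2) * L + i.1 * (2 * L) + i.2 * (2 * L)
        = ((2 * (4 * L + 1) - (i.1 : ℕ) - i.2) + i.1 + i.2) * L + (i.1 + i.2) * L := by ring
      _ = 2 * (4 * L + 1) * L + (i.1 + i.2) * L := by rw [h6]
      _ ≤ 2 * (4 * L + 1) * L + (2 * (4 * L + 1)) * L := by gcongr; omega
      _ = 4 * (4 * L + 1) * L := by ring
  let Φ : (Fin (4 * L + 2) × Fin (4 * L + 2) → A) →ₗ[A] (Fin (4 * (4 * L + 1) * L + 1) → A) :=
    { toFun := fun c e => ∑ i, c i * (B i).coeff e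
      map_add' := fun c d => by
        funext e
        simp [add_mul, Finset.sum_add_distrib]
      map_smul' := fun r c => by
        funext e
        simp [Finset.mul_sum, mul_assoc] }
  have hni : ¬ Function.Injective Φ := by
    intro hi
    have h1 := card_le_of_injective A Φ hi
    simp only [Fintype.card_prod, Fintype.card_fin] at h1
    nlinarith
  rw [← LinearMap.ker_eq_bot, Submodule.eq_bot_iff] at hni
  push Not at hni
  obtain ⟨c, hc, hc0⟩ := hni
  refine ⟨c, hc0, ?_⟩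
  ext e
  rw [Polynomial.finsetSum_coeff, Polynomial.coeff_zero]
  simp only [Polynomial.coeff_C_mul]
  by_cases he : e < 4 * (4 * L + 1) * L + 1
  · have h1 := congrFun (LinearMap.mem_ker.1 hc) ⟨e, he⟩
    exact h1
  · refine Finset.sum_eq_zero fun i _ => ?_
    rw [Polynomial.coeff_eq_zero_of_natDegree_lt (lt_of_le_of_lt (hdeg i) (by omega)), mul_zero]

/-- The cluster points of an exponential polynomial with phases in a group of rank one lie in a
real algebraic curve. -/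
theorem rank_one {ι : Type} [Fintype ι] (a : ι → ℂ) (p : ι → ℝ × ℕ) (e : ι → ℤ) (z : ℂ)
    (hz : ‖z‖ = 1) : ∃ (D : ℕ) (γ : Fin D × Fin D → ℂ), γ ≠ 0 ∧
      ∀ (F : Filter ℕ) [F.NeBot], F ≤ atTop → ∀ v : ℂ,
        Tendsto (fun m => ∑ i, a i * mono (p i) m * (z ^ m) ^ (e i)) F (𝓝 v) →
        ∑ i, γ i * (v ^ (i.1 : ℕ) * (starRingEnd ℂ v) ^ (i.2 : ℕ)) = 0 := by
  classical
  have hz0 : z ≠ 0 := by
    rintro rfl
    simp at hz
  obtain ⟨L, hL⟩ : ∃ L : ℕ, ∀ i, (e i).natAbs ≤ L :=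
    ⟨∑ i, (e i).natAbs, fun i => Finset.single_le_sum (f := fun i => (e i).natAbs)
      (fun _ _ => Nat.zero_le _) (Finset.mem_univ i)⟩
  set g : Polynomial EE := ∑ i, Polynomial.monomial ((e i + L).toNat)
    (AddMonoidAlgebra.single (p i) (a i)) with hg
  set h : Polynomial EE := ∑ i, Polynomial.monomial ((L - e i).toNat)
    (AddMonoidAlgebra.single (p i) (starRingEnd ℂ (a i))) with hh
  have hgd : g.natDegree ≤ 2 * L := by
    refine Polynomial.natDegree_sum_le_of_forall_le _ _ fun i _ => ?_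
    refine (Polynomial.natDegree_monomial_le _).trans ?_
    have := hL i
    omega
  have hhd : h.natDegree ≤ 2 * L := by
    refine Polynomial.natDegree_sum_le_of_forall_le _ _ fun i _ => ?_
    refine (Polynomial.natDegree_monomial_le _).trans ?_
    have := hL i
    omega
  set G : ℕ → ℂ := fun m => ∑ i, a i * mono (p i) m * (z ^ m) ^ (e i) with hG
  have hw0 : ∀ m : ℕ, z ^ m ≠ 0 := fun m => pow_ne_zero _ hz0
  have hgev : ∀ m : ℕ, Polynomial.eval₂ (ev m : EE →+* ℂ) (z ^ m) g = (z ^ m) ^ L * G m := by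
    intro m
    rw [hg, Polynomial.eval₂_finsetSum, hG, Finset.mul_sum]
    refine Finset.sum_congr rfl fun i _ => ?_
    rw [Polynomial.eval₂_monomial]
    have h1 : (ev m : EE →+* ℂ) (AddMonoidAlgebra.single (p i) (a i)) = a i * mono (p i) m :=
      ev_single m _ _
    rw [h1]
    have h2 : (z ^ m) ^ ((e i + L).toNat) = (z ^ m) ^ L * (z ^ m) ^ (e i) := by
      rw [← zpow_natCast, ← zpow_natCast (z ^ m) L, ← zpow_add₀ (hw0 m)]
      congr 1
      have := hL i
      omega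
    rw [h2]
    ring
  have hhev : ∀ m : ℕ, Polynomial.eval₂ (ev m : EE →+* ℂ) (z ^ m) h =
      (z ^ m) ^ L * starRingEnd ℂ (G m) := by
    intro m
    rw [hh, Polynomial.eval₂_finsetSum, hG]
    simp only [map_sum]
    rw [Finset.mul_sum]
    refine Finset.sum_congr rfl fun i _ => ?_
    rw [Polynomial.eval₂_monomial]
    have h1 : (ev m : EE →+* ℂ) (AddMonoidAlgebra.single (p i) (starRingEnd ℂ (a i))) =
        starRingEnd ℂ (a i) * mono (p i) m := ev_single m _ _
    rw [h1, map_mul, map_mul, conj_mono, map_zpow₀, map_pow]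
    have h3 : starRingEnd ℂ z = z⁻¹ := by
      rw [Complex.inv_def, Complex.normSq_eq_norm_sq, hz]
      simp
    have h2 : (z ^ m) ^ ((L - e i).toNat) = (z ^ m) ^ L * ((starRingEnd ℂ z) ^ m) ^ (e i) := by
      rw [h3, inv_pow, inv_zpow, ← zpow_neg, ← zpow_natCast, ← zpow_natCast (z ^ m) L,
        ← zpow_add₀ (hw0 m)]
      congr 1
      have := hL i
      omega
    rw [h2]
    ring
  obtain ⟨c, hc0, hc⟩ := exists_rel L g h hgd hhd
  have hrel : ∀ m : ℕ, ∑ i, ev m (c i) * (G m ^ (i.1 : ℕ) * (starRingEnd ℂ (G m)) ^ (i.2 : ℕ)) =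
      0 := by
    intro m
    have h1 := congrArg (Polynomial.eval₂ (ev m : EE →+* ℂ) (z ^ m)) hc
    rw [Polynomial.eval₂_finsetSum, Polynomial.eval₂_zero] at h1
    have h2 : ∀ i : Fin (4 * L + 2) × Fin (4 * L + 2),
        Polynomial.eval₂ (ev m : EE →+* ℂ) (z ^ m) (Polynomial.C (c i) *
          (Polynomial.X ^ ((2 * (4 * L + 1) - i.1 - i.2) * L) * g ^ (i.1 : ℕ) * h ^ (i.2 : ℕ))) =
        (z ^ m) ^ (2 * (4 * L + 1) * L) *
          (ev m (c i) * (G m ^ (i.1 : ℕ) * (starRingEnd ℂ (G m)) ^ (i.2 : ℕ))) := by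
      intro i
      rw [Polynomial.eval₂_mul, Polynomial.eval₂_mul, Polynomial.eval₂_mul, Polynomial.eval₂_C,
        Polynomial.eval₂_pow, Polynomial.eval₂_pow, Polynomial.eval₂_pow, Polynomial.eval₂_X,
        hgev, hhev]
      have h4 : (i.1 : ℕ) ≤ 4 * L + 1 := by omega
      have h5 : (i.2 : ℕ) ≤ 4 * L + 1 := by omega
      have h6 : (2 * (4 * L + 1) - (i.1 : ℕ) - i.2) + i.1 + i.2 = 2 * (4 * L + 1) := by omega
      have h7 : (ev m : EE →+* ℂ) (c i) = ev m (c i) := rfl
      have h8 : (z ^ m) ^ (2 * (4 * L + 1) * L) = (z ^ m) ^ ((2 * (4 * L + 1) - i.1 - i.2) * L) *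
          ((z ^ m) ^ L) ^ (i.1 : ℕ) * ((z ^ m) ^ L) ^ (i.2 : ℕ) := by
        rw [← pow_mul (z ^ m) L, ← pow_mul (z ^ m) L, ← pow_add, ← pow_add]
        congr 1
        nlinarith [congrArg (· * L) h6]
      rw [h7, mul_pow, mul_pow, h8]
      ring
    simp only [h2] at h1
    rw [← Finset.mul_sum] at h1
    exact (mul_eq_zero.1 h1).resolve_left (pow_ne_zero _ (hw0 m))
  obtain ⟨i0, hi0⟩ : ∃ i, c i ≠ 0 := by
    by_contra h1
    push Not at h1
    exact hc0 (funext h1)
  obtain ⟨p0, hp0⟩ : ∃ q, q ∈ (c i0).coeff.support := by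
    by_contra h1
    push Not at h1
    exact hi0 (AddMonoidAlgebra.coeff_eq_zero.1
      (Finsupp.support_eq_empty.1 (Finset.eq_empty_of_forall_notMem h1)))
  set S : Finset (ℝ ×ₗ ℕ) := Finset.univ.biUnion fun i => (c i).coeff.support.image toLex with hS
  have hSn : S.Nonempty := ⟨toLex p0, Finset.mem_biUnion.2 ⟨i0, Finset.mem_univ _,
    Finset.mem_image_of_mem _ hp0⟩⟩
  set q : ℝ × ℕ := ofLex (S.max' hSn) with hq
  have hle : ∀ i, ∀ r ∈ (c i).coeff.support, toLex r ≤ toLex q := fun i r hr =>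
    S.le_max' _ (Finset.mem_biUnion.2 ⟨i, Finset.mem_univ _, Finset.mem_image_of_mem _ hr⟩)
  refine ⟨4 * L + 2, fun i => (c i).coeff q, ?_, ?_⟩
  · intro h1
    obtain ⟨i, -, h2⟩ := Finset.mem_biUnion.1 (S.max'_mem hSn)
    obtain ⟨r, hr, h3⟩ := Finset.mem_image.1 h2
    have h4 : r = q := by
      rw [hq, ← h3]
      rfl
    rw [h4] at hr
    exact Finsupp.mem_support_iff.1 hr (congrFun h1 i)
  · intro F _ hF v hv
    have h1 : Tendsto (fun m => ∑ i, (ev m (c i) / mono q m) *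
        (G m ^ (i.1 : ℕ) * (starRingEnd ℂ (G m)) ^ (i.2 : ℕ))) F
        (𝓝 (∑ i, (c i).coeff q * (v ^ (i.1 : ℕ) * (starRingEnd ℂ v) ^ (i.2 : ℕ)))) := by
      refine tendsto_finsetSum _ fun i _ => ?_
      refine Tendsto.mul ((tendsto_ev (hle i)).mono_left hF) ?_
      refine Tendsto.mul (hv.pow _) (Tendsto.pow ?_ _)
      exact (Complex.continuous_conj.tendsto v).comp hv
    refine tendsto_nhds_unique (h1.congr fun m => ?_) tendsto_const_nhds
    have h2 := hrel m
    calc ∑ i, (ev m (c i) / mono q m) * (G m ^ (i.1 : ℕ) * (starRingEnd ℂ (G m)) ^ (i.2 : ℕ))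
        = (∑ i, ev m (c i) * (G m ^ (i.1 : ℕ) * (starRingEnd ℂ (G m)) ^ (i.2 : ℕ))) /
          mono q m := by
          rw [Finset.sum_div]
          exact Finset.sum_congr rfl fun i _ => by ring
      _ = 0 := by rw [h2, zero_div]

end Pool.Agent.R853.WNH
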