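import Pool.Agent.R853.WNH.Rank

/-!
# Cluster points of exponential polynomials
-/

set_option autoImplicit false

namespace Pool.Agent.R853.WNH

open Filter Topology Polynomial

/-- A real algebraic curve has large holes in almost all directions. -/
theorem avoid (D : ℕ) (γ : Fin D × Fin D → ℂ) (hγ : γ ≠ 0) :
    ∃ E : Finset ℂ, ∀ ζ : ℂ, ‖ζ‖ = 1 → ζ ∉ E → ∀ C : ℝ, ∀ᶠ ρ : ℝ in atTop, ∀ v : ℂ,
      ‖v - ρ * ζ‖ ≤ C → ∑ i, γ i * (v ^ (i.1 : ℕ) * (starRingEnd ℂ v) ^ (i.2 : ℕ)) ≠ 0 := by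
  classical
  obtain ⟨i1, hi1⟩ : ∃ i, γ i ≠ 0 := by
    by_contra h1
    push Not at h1
    exact hγ (funext h1)
  obtain ⟨i0, hi0, hmax⟩ := Finset.exists_max_image (Finset.univ.filter fun i => γ i ≠ 0)
    (fun i => (i.1 : ℕ) + i.2) ⟨i1, by simpa using hi1⟩
  have hi0' : γ i0 ≠ 0 := by simpa using hi0
  set d : ℕ := (i0.1 : ℕ) + i0.2 with hd
  have hle : ∀ i, γ i ≠ 0 → (i.1 : ℕ) + i.2 ≤ d := fun i hi => hmax i (by simpa using hi)
  set q : ℂ[X] := ∑ i : Fin D × Fin D,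
    if (i.1 : ℕ) + i.2 = d then C (γ i) * X ^ (2 * (i.1 : ℕ)) else 0 with hq
  have hq0 : q ≠ 0 := by
    intro h0
    have h1 : q.coeff (2 * (i0.1 : ℕ)) = γ i0 := by
      rw [hq, Polynomial.finsetSum_coeff, Finset.sum_eq_single i0]
      · rw [if_pos rfl, Polynomial.coeff_C_mul_X_pow, if_pos rfl]
      · intro i _ hi
        split_ifs with h2
        · rw [Polynomial.coeff_C_mul_X_pow, if_neg]
          intro h3
          apply hi
          have h4 : (i.1 : ℕ) = i0.1 := by omega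
          have h5 : (i.2 : ℕ) = i0.2 := by omega
          exact Prod.ext (Fin.ext h4) (Fin.ext h5)
        · simp
      · intro h2
        exact absurd (Finset.mem_univ _) h2
    rw [h0, Polynomial.coeff_zero] at h1
    exact hi0' h1.symm
  refine ⟨q.roots.toFinset, fun ζ hζ hζE K => ?_⟩
  have hqζ : q.eval ζ ≠ 0 := by
    intro h1
    exact hζE (Multiset.mem_toFinset.2 ((Polynomial.mem_roots hq0).2 h1))
  by_contra hcon
  rw [not_eventually] at hcon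
  have hne : (atTop ⊓ 𝓟 {ρ : ℝ | ¬ ∀ v : ℂ, ‖v - ρ * ζ‖ ≤ K →
      ∑ i, γ i * (v ^ (i.1 : ℕ) * (starRingEnd ℂ v) ^ (i.2 : ℕ)) ≠ 0}).NeBot :=
    frequently_mem_iff_neBot.1 hcon
  set F : Filter ℝ := atTop ⊓ 𝓟 {ρ : ℝ | ¬ ∀ v : ℂ, ‖v - ρ * ζ‖ ≤ K →
      ∑ i, γ i * (v ^ (i.1 : ℕ) * (starRingEnd ℂ v) ^ (i.2 : ℕ)) ≠ 0} with hF
  have hex : ∀ ρ : ℝ, ∃ v : ℂ, (¬ ∀ v : ℂ, ‖v - ρ * ζ‖ ≤ K →
      ∑ i, γ i * (v ^ (i.1 : ℕ) * (starRingEnd ℂ v) ^ (i.2 : ℕ)) ≠ 0) → ‖v - ρ * ζ‖ ≤ K ∧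
      ∑ i, γ i * (v ^ (i.1 : ℕ) * (starRingEnd ℂ v) ^ (i.2 : ℕ)) = 0 := by
    intro ρ
    by_cases h : ∀ v : ℂ, ‖v - ρ * ζ‖ ≤ K →
      ∑ i, γ i * (v ^ (i.1 : ℕ) * (starRingEnd ℂ v) ^ (i.2 : ℕ)) ≠ 0
    · exact ⟨0, fun h' => absurd h h'⟩
    · push Not at h
      obtain ⟨v, h1, h2⟩ := h
      exact ⟨v, fun _ => ⟨h1, h2⟩⟩
  choose v hv using hex
  have hvF : ∀ᶠ ρ in F, ‖v ρ - ρ * ζ‖ ≤ K ∧
      ∑ i, γ i * ((v ρ) ^ (i.1 : ℕ) * (starRingEnd ℂ (v ρ)) ^ (i.2 : ℕ)) = 0 := by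
    have h1 : ∀ᶠ ρ in F, ρ ∈ {ρ : ℝ | ¬ ∀ v : ℂ, ‖v - ρ * ζ‖ ≤ K →
      ∑ i, γ i * (v ^ (i.1 : ℕ) * (starRingEnd ℂ v) ^ (i.2 : ℕ)) ≠ 0} :=
      mem_inf_of_right (mem_principal_self _)
    exact h1.mono fun ρ hρ => hv ρ hρ
  have hpos : ∀ᶠ ρ : ℝ in F, 0 < ρ := (eventually_gt_atTop 0).filter_mono inf_le_left
  have hinv : Tendsto (fun ρ : ℝ => 1 / ρ) F (𝓝 0) := by
    simp only [one_div]
    exact tendsto_inv_atTop_zero.mono_left (inf_le_left : F ≤ atTop)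
  have ht : Tendsto (fun ρ : ℝ => ((1 / ρ : ℝ) : ℂ)) F (𝓝 0) := by
    exact (Complex.continuous_ofReal.tendsto 0).comp hinv
  have hx : Tendsto (fun ρ : ℝ => v ρ * ((1 / ρ : ℝ) : ℂ)) F (𝓝 ζ) := by
    rw [tendsto_iff_norm_sub_tendsto_zero]
    have h1 : Tendsto (fun ρ : ℝ => K * (1 / ρ)) F (𝓝 0) := by
      have h2 := hinv.const_mul K
      rwa [mul_zero] at h2
    refine squeeze_zero' (Eventually.of_forall fun _ => norm_nonneg _) ?_ h1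
    filter_upwards [hvF, hpos] with ρ h2 h3
    have h4 : (ρ : ℂ) ≠ 0 := by exact_mod_cast h3.ne'
    have h5 : v ρ * ((1 / ρ : ℝ) : ℂ) - ζ = (v ρ - ρ * ζ) * ((1 / ρ : ℝ) : ℂ) := by
      push_cast
      field_simp
    rw [h5, norm_mul]
    refine mul_le_mul h2.1 ?_ (norm_nonneg _) ((norm_nonneg _).trans h2.1)
    rw [Complex.norm_real, Real.norm_of_nonneg (by positivity)]
  have hy : Tendsto (fun ρ : ℝ => starRingEnd ℂ (v ρ) * ((1 / ρ : ℝ) : ℂ)) F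
      (𝓝 (starRingEnd ℂ ζ)) := by
    have h1 := (Complex.continuous_conj.tendsto ζ).comp hx
    refine h1.congr fun ρ => ?_
    simp only [Function.comp, map_mul, Complex.conj_ofReal]
  have hlim : Tendsto (fun ρ : ℝ => ∑ i, γ i * ((v ρ * ((1 / ρ : ℝ) : ℂ)) ^ (i.1 : ℕ) *
      (starRingEnd ℂ (v ρ) * ((1 / ρ : ℝ) : ℂ)) ^ (i.2 : ℕ) *
      ((1 / ρ : ℝ) : ℂ) ^ (d - ((i.1 : ℕ) + i.2)))) F
      (𝓝 (∑ i, γ i * (ζ ^ (i.1 : ℕ) * (starRingEnd ℂ ζ) ^ (i.2 : ℕ) *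
        0 ^ (d - ((i.1 : ℕ) + i.2))))) := by
    refine tendsto_finsetSum _ fun i _ => ?_
    exact (((hx.pow _).mul (hy.pow _)).mul (ht.pow _)).const_mul _
  have hzero : ∑ i, γ i * (ζ ^ (i.1 : ℕ) * (starRingEnd ℂ ζ) ^ (i.2 : ℕ) *
        0 ^ (d - ((i.1 : ℕ) + i.2))) = 0 := by
    refine tendsto_nhds_unique hlim ((tendsto_const_nhds (x := (0 : ℂ))).congr' ?_)
    filter_upwards [hvF] with ρ h2
    have h3 : ∑ i, γ i * ((v ρ * ((1 / ρ : ℝ) : ℂ)) ^ (i.1 : ℕ) *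
      (starRingEnd ℂ (v ρ) * ((1 / ρ : ℝ) : ℂ)) ^ (i.2 : ℕ) *
      ((1 / ρ : ℝ) : ℂ) ^ (d - ((i.1 : ℕ) + i.2))) =
      (∑ i, γ i * ((v ρ) ^ (i.1 : ℕ) * (starRingEnd ℂ (v ρ)) ^ (i.2 : ℕ))) *
        ((1 / ρ : ℝ) : ℂ) ^ d := by
      rw [Finset.sum_mul]
      refine Finset.sum_congr rfl fun i _ => ?_
      by_cases hi : γ i = 0
      · rw [hi]
        ring
      · have h4 : ((1 / ρ : ℝ) : ℂ) ^ d = ((1 / ρ : ℝ) : ℂ) ^ (i.1 : ℕ) *
            ((1 / ρ : ℝ) : ℂ) ^ (i.2 : ℕ) * ((1 / ρ : ℝ) : ℂ) ^ (d - ((i.1 : ℕ) + i.2)) := by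
          rw [← pow_add, ← pow_add]
          congr 1
          have := hle i hi
          omega
        rw [h4, mul_pow, mul_pow]
        ring
    rw [h3, h2.2, zero_mul]
  apply hqζ
  have hζ0 : ζ ≠ 0 := by
    rintro rfl
    simp at hζ
  have hconj : starRingEnd ℂ ζ = ζ⁻¹ := by
    rw [Complex.inv_def, Complex.normSq_eq_norm_sq, hζ]
    simp
  have h6 : q.eval ζ = ζ ^ d * ∑ i, γ i * (ζ ^ (i.1 : ℕ) * (starRingEnd ℂ ζ) ^ (i.2 : ℕ) *
        0 ^ (d - ((i.1 : ℕ) + i.2))) := by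
    rw [hq, Polynomial.eval_finsetSum, Finset.mul_sum]
    refine Finset.sum_congr rfl fun i _ => ?_
    by_cases hi : γ i = 0
    · rw [hi]
      split_ifs <;> simp
    · have h7 := hle i hi
      split_ifs with h8
      · rw [h8, Nat.sub_self, pow_zero, mul_one, Polynomial.eval_mul, Polynomial.eval_C,
          Polynomial.eval_pow, Polynomial.eval_X, hconj, inv_pow, ← h8]
        have h9 : ζ ^ (i.2 : ℕ) ≠ 0 := pow_ne_zero _ hζ0
        field_simp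
        ring
      · have h9 : d - ((i.1 : ℕ) + i.2) ≠ 0 := by omega
        rw [zero_pow h9]
        simp
  rw [h6, hzero, mul_zero]

/-- The value of the exponential polynomial `Σ Λ ^ m q_Λ(m)`. -/
noncomputable def EP (q : ℂ →₀ ℂ[X]) (m : ℕ) : ℂ := q.sum fun l P => l ^ m * P.eval (m : ℂ)

theorem EP_add (q r : ℂ →₀ ℂ[X]) (m : ℕ) : EP (q + r) m = EP q m + EP r m := by
  classical
  rw [EP, EP, EP, Finsupp.sum_add_index']
  · simp
  · intro l P Q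
    rw [Polynomial.eval_add]
    ring

theorem EP_single (l : ℂ) (P : ℂ[X]) (m : ℕ) :
    EP (Finsupp.single l P) m = l ^ m * P.eval (m : ℂ) := by
  rw [EP, Finsupp.sum_single_index]
  simp

theorem EP_zero (m : ℕ) : EP 0 m = 0 := by simp [EP]

theorem tendsto_small {l : ℂ} (hl : ‖l‖ < 1) (P : ℂ[X]) :
    Tendsto (fun m : ℕ => l ^ m * P.eval (m : ℂ)) atTop (𝓝 0) := by
  have h1 : ∀ m : ℕ, l ^ m * P.eval (m : ℂ) =
      ∑ k ∈ Finset.range (P.natDegree + 1), P.coeff k * ((m : ℂ) ^ k * l ^ m) := by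
    intro m
    rw [Polynomial.eval_eq_sum_range, Finset.mul_sum]
    exact Finset.sum_congr rfl fun k _ => by ring
  simp only [h1]
  have h2 : (0 : ℂ) = ∑ k ∈ Finset.range (P.natDegree + 1), P.coeff k * 0 := by simp
  rw [h2]
  refine tendsto_finsetSum _ fun k _ => Tendsto.const_mul _ ?_
  rw [tendsto_zero_iff_norm_tendsto_zero]
  have h3 := tendsto_pow_const_mul_const_pow_of_abs_lt_one k (r := ‖l‖) (by
    rwa [abs_of_nonneg (norm_nonneg _)])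
  refine h3.congr fun m => ?_
  rw [norm_mul, norm_pow, norm_pow, Complex.norm_natCast]

/-- The indices of the unbounded terms. -/
def Unb (l : ℂ) (P : ℂ[X]) : Prop := 1 < ‖l‖ ∨ ‖l‖ = 1 ∧ 0 < P.natDegree

theorem bdd_term {l : ℂ} {P : ℂ[X]} (h : ¬ Unb l P) :
    ∃ C : ℝ, ∀ m : ℕ, ‖l ^ m * P.eval (m : ℂ)‖ ≤ C := by
  rw [Unb] at h
  push Not at h
  rcases h.1.lt_or_eq with h1 | h1
  · obtain ⟨C, hC⟩ := (tendsto_small h1 P).norm.bddAbove_range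
    exact ⟨C, fun m => hC ⟨m, rfl⟩⟩
  · have h2 : P.natDegree = 0 := Nat.le_zero.1 (h.2 h1)
    refine ⟨‖P.coeff 0‖, fun m => ?_⟩
    rw [Polynomial.eq_C_of_natDegree_eq_zero h2, Polynomial.eval_C, norm_mul, norm_pow, h1,
      one_pow, one_mul]
    simp

theorem bdd_EP (q : ℂ →₀ ℂ[X]) (h : ∀ l ∈ q.support, ¬ Unb l (q l)) :
    ∃ C : ℝ, ∀ m : ℕ, ‖EP q m‖ ≤ C := by
  classical
  have h1 : ∀ l : ℂ, ∃ C : ℝ, l ∈ q.support → ∀ m : ℕ, ‖l ^ m * (q l).eval (m : ℂ)‖ ≤ C := by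
    intro l
    by_cases hl : l ∈ q.support
    · obtain ⟨C, hC⟩ := bdd_term (h l hl)
      exact ⟨C, fun _ => hC⟩
    · exact ⟨0, fun h => absurd h hl⟩
  choose C hC using h1
  refine ⟨∑ l ∈ q.support, C l, fun m => ?_⟩
  rw [EP, Finsupp.sum]
  exact (norm_sum_le _ _).trans (Finset.sum_le_sum fun l hl => hC l hl m)

theorem tendsto_top (q : ℂ →₀ ℂ[X]) {l : ℂ} (hl : l ∈ q.support) (hu : Unb l (q l))
    (h : ∀ l' ∈ q.support, l' ≠ l → ‖l'‖ < ‖l‖) :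
    Tendsto (fun m => ‖EP q m‖) atTop atTop := by
  classical
  have hl1 : 1 ≤ ‖l‖ := by
    rcases hu with h1 | h1
    · exact h1.le
    · exact h1.1.ge
  have hl0 : l ≠ 0 := by
    rintro rfl
    simp at hl1
    linarith
  set e : ℕ → ℂ := fun m => ∑ l' ∈ q.support.erase l, (l' / l) ^ m * (q l').eval (m : ℂ) with he
  have he0 : Tendsto e atTop (𝓝 0) := by
    have h2 : (0 : ℂ) = ∑ l' ∈ q.support.erase l, 0 := by simp
    rw [h2]
    refine tendsto_finsetSum _ fun l' hl' => tendsto_small ?_ _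
    have h3 := h l' (Finset.mem_of_mem_erase hl') (Finset.ne_of_mem_erase hl')
    rw [norm_div, div_lt_one (by linarith)]
    exact h3
  have hEP : ∀ m, EP q m = l ^ m * ((q l).eval (m : ℂ) + e m) := by
    intro m
    rw [EP, Finsupp.sum, ← Finset.add_sum_erase _ _ hl, mul_add, he, Finset.mul_sum]
    congr 1
    refine Finset.sum_congr rfl fun l' _ => ?_
    rw [div_pow]
    field_simp
  simp only [hEP, norm_mul, norm_pow]
  by_cases hd : 0 < (q l).natDegree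
  · have h2 : Tendsto (fun m : ℕ => ‖(q l).eval (m : ℂ)‖) atTop atTop := by
      refine Polynomial.tendsto_norm_atTop _ (Polynomial.natDegree_pos_iff_degree_pos.1 hd) ?_
      simp only [Complex.norm_natCast]
      exact tendsto_natCast_atTop_atTop
    have h3 : Tendsto (fun m : ℕ => ‖(q l).eval (m : ℂ)‖ - ‖e m‖) atTop atTop := by
      have h4 := he0.norm
      rw [norm_zero] at h4
      simpa [sub_eq_add_neg] using h2.atTop_add h4.neg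
    refine tendsto_atTop_mono (fun m => ?_) h3
    have h4 : ‖(q l).eval (m : ℂ)‖ - ‖e m‖ ≤ ‖(q l).eval (m : ℂ) + e m‖ := by
      have := norm_sub_norm_le ((q l).eval (m : ℂ)) (-e m)
      rwa [norm_neg, sub_neg_eq_add] at this
    refine h4.trans ?_
    exact le_mul_of_one_le_left (norm_nonneg _) (one_le_pow₀ hl1)
  · have hd0 : (q l).natDegree = 0 := by omega
    have h1 : 1 < ‖l‖ := by
      rcases hu with h1 | h1
      · exact h1
      · exact absurd h1.2 hd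
    have hc : (q l).coeff 0 ≠ 0 := by
      intro h2
      have h3 := Polynomial.eq_C_of_natDegree_eq_zero hd0
      rw [h2, Polynomial.C_0] at h3
      exact Finsupp.mem_support_iff.1 hl h3
    have h2 : Tendsto (fun m : ℕ => ‖(q l).eval (m : ℂ) + e m‖) atTop (𝓝 ‖(q l).coeff 0‖) := by
      have h3 : ∀ m : ℕ, (q l).eval (m : ℂ) = (q l).coeff 0 := by
        intro m
        rw [Polynomial.eq_C_of_natDegree_eq_zero hd0, Polynomial.eval_C]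
        simp
      simp only [h3]
      simpa using (he0.const_add ((q l).coeff 0)).norm
    exact (tendsto_pow_atTop_atTop_of_one_lt h1).atTop_mul_pos (norm_pos_iff.2 hc) h2

theorem rank_one_EP (q : ℂ →₀ ℂ[X]) {z : ℂ} (hz : ‖z‖ = 1)
    (h : ∀ l ∈ q.support, l ≠ 0 ∧ ∃ e : ℤ, l = ‖l‖ * z ^ e) :
    ∃ (D : ℕ) (γ : Fin D × Fin D → ℂ), γ ≠ 0 ∧
      ∀ (F : Filter ℕ) [F.NeBot], F ≤ atTop → ∀ v : ℂ, Tendsto (EP q) F (𝓝 v) →
        ∑ i, γ i * (v ^ (i.1 : ℕ) * (starRingEnd ℂ v) ^ (i.2 : ℕ)) = 0 := by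
  classical
  choose! h0 e he using h
  obtain ⟨d, hd⟩ : ∃ d : ℕ, ∀ l ∈ q.support, (q l).natDegree < d :=
    ⟨(∑ l ∈ q.support, (q l).natDegree) + 1, fun l hl => Nat.lt_succ_of_le
      (Finset.single_le_sum (f := fun l => (q l).natDegree) (fun _ _ => Nat.zero_le _) hl)⟩
  obtain ⟨D, γ, hγ, h1⟩ := rank_one (ι := {l // l ∈ q.support} × Fin d)
    (fun i => (q i.1.1).coeff i.2) (fun i => (Real.log ‖i.1.1‖, (i.2 : ℕ))) (fun i => e i.1.1) z hz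
  refine ⟨D, γ, hγ, fun F _ hF v hv => h1 F hF v (hv.congr fun m => ?_)⟩
  rw [EP, Finsupp.sum, Fintype.sum_prod_type, ← Finset.sum_attach]
  refine Finset.sum_congr rfl fun l _ => ?_
  rw [Polynomial.eval_eq_sum_range' (hd l.1 l.2), Finset.mul_sum, ← Fin.sum_univ_eq_sum_range
    (fun k => l.1 ^ m * ((q l.1).coeff k * (m : ℂ) ^ k)) d]
  refine Finset.sum_congr rfl fun k _ => ?_
  have hpos : 0 < ‖l.1‖ := norm_pos_iff.2 (h0 l.1 l.2)
  have h2 : mono (Real.log ‖l.1‖, (k : ℕ)) m = (‖l.1‖ : ℂ) ^ m * (m : ℂ) ^ (k : ℕ) := by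
    rw [mono]
    push_cast
    congr 1
    rw [mul_comm, Complex.exp_nat_mul, ← Complex.ofReal_exp, Real.exp_log hpos]
  have h3 : l.1 ^ m = (‖l.1‖ : ℂ) ^ m * (z ^ m) ^ (e l.1) := by
    conv_lhs => rw [he l.1 l.2]
    rw [mul_pow]
    congr 1
    rw [← zpow_natCast (z ^ e l.1) m, ← zpow_natCast z m, ← zpow_mul, ← zpow_mul, mul_comm]
  show l.1 ^ m * ((q l.1).coeff k * (m : ℂ) ^ (k : ℕ)) =
    (q l.1).coeff k * mono (Real.log ‖l.1‖, (k : ℕ)) m * (z ^ m) ^ (e l.1)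
  rw [h2, h3]
  ring

end Pool.Agent.R853.WNH
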